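import Mathlib

set_option autoImplicit false
set_option linter.unusedSectionVars false

universe u

namespace Pool.Agent.Results.MP_845d9e_ag.EveryField

open MvPolynomial

/-- Exponent vectors, and also labels of the points of the grid. -/
abbrev GG := Fin 4 → Fin 5

/-- The degree function on exponent vectors. -/
def dgn (a b c d : ℕ) : ℕ :=
  if a + b + c ≤ d then d else if a + b + c ≤ 7 + d then d + 1 else d + 2

/-- The degree function on exponent vectors. -/
def dg (g : GG) : ℕ := dgn (g 0) (g 1) (g 2) (g 3)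

lemma card1 : (Finset.univ.filter (fun g : GG => dg g ≤ 1)).card = 94 := by decide +kernel
lemma cardd0 : (Finset.univ.filter (fun g : GG => dg g = 0)).card = 1 := by decide +kernel
lemma cardd1 : (Finset.univ.filter (fun g : GG => dg g = 1)).card = 93 := by decide +kernel
lemma cardd2 : (Finset.univ.filter (fun g : GG => dg g = 2)).card = 146 := by decide +kernel
lemma cardd3 : (Finset.univ.filter (fun g : GG => dg g = 3)).card = 145 := by decide +kernel
lemma cardd4 : (Finset.univ.filter (fun g : GG => dg g = 4)).card = 146 := by decide +kernel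
lemma cardd5 : (Finset.univ.filter (fun g : GG => dg g = 5)).card = 93 := by decide +kernel
lemma cardd6 : (Finset.univ.filter (fun g : GG => dg g = 6)).card = 1 := by decide +kernel

lemma step0 : ∀ x0 x1 x2 x3 : Fin 5, dgn x0 x1 x2 x3 ≠ 0 → ∃ y0 y1 y2 y3 : Fin 5, y0 ≤ x0 ∧ y1 ≤ x1 ∧
  y2 ≤ x2 ∧ y3 ≤ x3 ∧ dgn y0 y1 y2 y3 ≤ 1 ∧
  dgn ((x0 : ℕ) - y0) ((x1 : ℕ) - y1) ((x2 : ℕ) - y2) ((x3 : ℕ) - y3) + 1 = dgn x0 x1 x2 x3 := by
  decide +kernel

lemma step (g : GG) (h : dg g ≠ 0) : ∃ a b : GG, (∀ c, (g c : ℕ) = a c + b c) ∧ dg a ≤ 1 ∧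
    dg b + 1 = dg g := by
  obtain ⟨y0, y1, y2, y3, h0, h1, h2, h3, h4, h5⟩ := step0 (g 0) (g 1) (g 2) (g 3) h
  refine ⟨![y0, y1, y2, y3], ![g 0 - y0, g 1 - y1, g 2 - y2, g 3 - y3], ?_, h4, ?_⟩
  · intro c
    fin_cases c
    · show ((g 0 : Fin 5) : ℕ) = (y0 : ℕ) + ((g 0 - y0 : Fin 5) : ℕ)
      rw [Fin.sub_val_of_le h0]; have : (y0 : ℕ) ≤ g 0 := h0; omega
    · show ((g 1 : Fin 5) : ℕ) = (y1 : ℕ) + ((g 1 - y1 : Fin 5) : ℕ)
      rw [Fin.sub_val_of_le h1]; have : (y1 : ℕ) ≤ g 1 := h1; omega
    · show ((g 2 : Fin 5) : ℕ) = (y2 : ℕ) + ((g 2 - y2 : Fin 5) : ℕ)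
      rw [Fin.sub_val_of_le h2]; have : (y2 : ℕ) ≤ g 2 := h2; omega
    · show ((g 3 : Fin 5) : ℕ) = (y3 : ℕ) + ((g 3 - y3 : Fin 5) : ℕ)
      rw [Fin.sub_val_of_le h3]; have : (y3 : ℕ) ≤ g 3 := h3; omega
  · show dgn ((g 0 - y0 : Fin 5) : ℕ) ((g 1 - y1 : Fin 5) : ℕ) ((g 2 - y2 : Fin 5) : ℕ)
      ((g 3 - y3 : Fin 5) : ℕ) + 1 = _
    rw [Fin.sub_val_of_le h0, Fin.sub_val_of_le h1, Fin.sub_val_of_le h2, Fin.sub_val_of_le h3]
    exact h5

/-- The relation: `k` can occur in the reduction of the product of the monomials `g`, `h`. -/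
def Occ (g h k : GG) : Prop :=
  ∀ c, (k c : ℕ) ≤ g c + h c ∧ ((g c + h c : ℕ) ≤ 4 → (k c : ℕ) = g c + h c)

lemma dg_occ {g h k : GG} (H : Occ g h k) : dg k ≤ dg g + dg h := by
  have h0 := H 0
  have h1 := H 1
  have h2 := H 2
  have h3 := H 3
  have := (g 3).isLt
  have := (h 3).isLt
  have := (k 3).isLt
  simp only [dg, dgn]
  split_ifs <;> omega

lemma dg_zero (g : GG) : dg g = 0 ↔ g = 0 := by
  constructor
  · intro h
    have : (g 0 : ℕ) = 0 ∧ (g 1 : ℕ) = 0 ∧ (g 2 : ℕ) = 0 ∧ (g 3 : ℕ) = 0 := by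
      simp only [dg, dgn] at h
      split_ifs at h <;> omega
    funext c
    fin_cases c
    · exact Fin.ext this.1
    · exact Fin.ext this.2.1
    · exact Fin.ext this.2.2.1
    · exact Fin.ext this.2.2.2
  · rintro rfl
    simp [dg, dgn]

/-- The top exponent vector. -/
def g₀ : GG := fun _ => 4

/-- The complementary exponent vector. -/
def co (g : GG) : GG := fun c => (g c).rev

lemma co_val (g : GG) (c : Fin 4) : (co g c : ℕ) = 4 - g c := by
  simp only [co, Fin.val_rev]; omega

lemma dg_co (g : GG) : dg g + dg (co g) = 6 := by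
  have := (g 0).isLt
  have := (g 1).isLt
  have := (g 2).isLt
  have := (g 3).isLt
  simp only [dg, dgn, co_val]
  split_ifs <;> omega

lemma dg_six (g : GG) : dg g = 6 ↔ g = g₀ := by
  have h := dg_co g
  have h2 := dg_zero (co g)
  constructor
  · intro h1
    have h3 : co g = 0 := h2.1 (by omega)
    funext c
    have h4 := co_val g c
    rw [h3] at h4
    have := (g c).isLt
    refine Fin.ext ?_
    show (g c : ℕ) = 4
    simp only [Pi.zero_apply, Fin.val_zero] at h4
    omega
  · rintro rfl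
    have : co g₀ = 0 := by
      funext c
      refine Fin.ext ?_
      rw [co_val]
      rfl
    have := h2.2 this
    omega

lemma dg_le (g : GG) : dg g ≤ 6 := by have := dg_co g; omega

/-- Total exponent. -/
def tot (g : GG) : ℕ := g 0 + g 1 + g 2 + g 3

lemma occ_tot {a h h' k : GG} (hk : ∀ c, (k c : ℕ) = a c + h c) (H : Occ a h' k)
    (ht : tot h' ≤ tot h) : h' = h := by
  have e : ∀ c, (h' c : ℕ) = h c := by
    have h0 := (H 0).1
    have h1 := (H 1).1
    have h2 := (H 2).1
    have h3 := (H 3).1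
    have k0 := hk 0
    have k1 := hk 1
    have k2 := hk 2
    have k3 := hk 3
    simp only [tot] at ht
    intro c
    fin_cases c
    · show (h' 0 : ℕ) = h 0; omega
    · show (h' 1 : ℕ) = h 1; omega
    · show (h' 2 : ℕ) = h 2; omega
    · show (h' 3 : ℕ) = h 3; omega
  funext c
  exact Fin.ext (e c)

section Fourier

variable {K : Type u} [Field K] (α : Fin 5 → K)

/-- The inverse Vandermonde matrix. -/
noncomputable def L : Matrix (Fin 5) (Fin 5) K := (Matrix.vandermonde α)⁻¹

lemma isU {α : Fin 5 → K} (hα : Function.Injective α) : IsUnit (Matrix.vandermonde α).det :=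
  isUnit_iff_ne_zero.2 (Matrix.det_vandermonde_ne_zero_iff.2 hα)

lemma LV {α : Fin 5 → K} (hα : Function.Injective α) (j t : Fin 5) :
    ∑ x, L α j x * α x ^ (t : ℕ) = if j = t then 1 else 0 := by
  have h := congrFun (congrFun (Matrix.nonsing_inv_mul _ (isU hα)) j) t
  rw [Matrix.mul_apply, Matrix.one_apply] at h
  exact h

lemma VL {α : Fin 5 → K} (hα : Function.Injective α) (w z : Fin 5) :
    ∑ j : Fin 5, α w ^ (j : ℕ) * L α j z = if w = z then 1 else 0 := by
  have h := congrFun (congrFun (Matrix.mul_nonsing_inv _ (isU hα)) w) z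
  rw [Matrix.mul_apply, Matrix.one_apply] at h
  exact h

/-- The monomial functions on the grid `α × α × α × α`. -/
def ev (g : GG) : GG → K := fun z => ∏ c, α (z c) ^ (g c : ℕ)

lemma ev_zero : ev α (0 : GG) = 1 := by
  funext z; simp [ev]

lemma ev_add {g a b : GG} (h : ∀ c, (g c : ℕ) = a c + b c) : ev α g = ev α a * ev α b := by
  funext z
  simp only [ev, Pi.mul_apply, ← Finset.prod_mul_distrib, h, pow_add]

/-- The coefficient functionals. -/
noncomputable def coef (g : GG) : (GG → K) →ₗ[K] K where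
  toFun F := ∑ z : GG, (∏ c, L α (g c) (z c)) * F z
  map_add' F F' := by
    simp only [Pi.add_apply, mul_add, Finset.sum_add_distrib]
  map_smul' c F := by
    simp only [Pi.smul_apply, smul_eq_mul, RingHom.id_apply, Finset.mul_sum]
    refine Finset.sum_congr rfl fun ψ _ => ?_
    ring

lemma coef_prod (g : GG) (t : Fin 4 → ℕ) :
    coef α g (fun z => ∏ c, α (z c) ^ t c) = ∏ c, ∑ x, L α (g c) x * α x ^ t c := by
  show ∑ z : GG, (∏ c, L α (g c) (z c)) * ∏ c, α (z c) ^ t c = _
  simp_rw [← Finset.prod_mul_distrib]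
  rw [Finset.prod_univ_sum, Fintype.piFinset_univ]

variable {α} (hα : Function.Injective α)
include hα

lemma coef_ev (g h : GG) : coef α g (ev α h) = if h = g then 1 else 0 := by
  have h1 := coef_prod α g (fun c => (h c : ℕ))
  rw [show ev α h = fun z => ∏ c, α (z c) ^ (h c : ℕ) from rfl, h1]
  simp only [LV hα]
  by_cases hgh : h = g
  · subst hgh
    simp
  · rw [if_neg hgh]
    obtain ⟨c, hc⟩ := Function.ne_iff.1 hgh
    exact Finset.prod_eq_zero (Finset.mem_univ c) (if_neg (Ne.symm hc))

lemma coef_mul {g h k : GG} (hne : coef α k (ev α g * ev α h) ≠ 0) : Occ g h k := by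
  have h1 := coef_prod α k (fun c => (g c + h c : ℕ))
  have h2 : ev α g * ev α h = fun z => ∏ c, α (z c) ^ (g c + h c : ℕ) := by
    funext z
    simp only [ev, Pi.mul_apply, ← Finset.prod_mul_distrib, pow_add]
  rw [h2, h1, Finset.prod_ne_zero_iff] at hne
  intro c
  have h3 := hne c (Finset.mem_univ c)
  by_cases ht : (g c + h c : ℕ) ≤ 4
  · have h4 := LV hα (k c) ⟨(g c + h c : ℕ), by omega⟩
    simp only at h4
    rw [h4] at h3
    have h5 : k c = ⟨(g c + h c : ℕ), by omega⟩ := by
      by_contra h6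
      exact h3 (if_neg h6)
    have h6 := congrArg Fin.val h5
    simp only at h6
    exact ⟨h6.le, fun _ => h6⟩
  · have := (k c).isLt
    exact ⟨by omega, fun h => absurd h ht⟩

lemma expand (F : GG → K) : F = ∑ g : GG, coef α g F • ev α g := by
  funext w
  rw [Finset.sum_apply]
  simp only [Pi.smul_apply, smul_eq_mul]
  show F w = ∑ g : GG, (∑ z : GG, (∏ c, L α (g c) (z c)) * F z) * ∏ c, α (w c) ^ (g c : ℕ)
  simp_rw [Finset.sum_mul]
  rw [Finset.sum_comm]
  have h1 : ∀ z : GG, ∑ g : GG, (∏ c, L α (g c) (z c)) * F z * ∏ c, α (w c) ^ (g c : ℕ) =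
      (if w = z then 1 else 0) * F z := by
    intro z
    have h2 : ∀ g : GG, (∏ c, L α (g c) (z c)) * F z * ∏ c, α (w c) ^ (g c : ℕ) =
        (∏ c, α (w c) ^ (g c : ℕ) * L α (g c) (z c)) * F z := by
      intro g
      rw [Finset.prod_mul_distrib]
      ring
    simp_rw [h2]
    rw [← Finset.sum_mul]
    congr 1
    have h3 := Finset.prod_univ_sum (fun _ : Fin 4 => (Finset.univ : Finset (Fin 5)))
      (fun c j => α (w c) ^ (j : ℕ) * L α j (z c))
    rw [Fintype.piFinset_univ] at h3
    rw [← h3]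
    simp only [VL hα]
    by_cases hwz : w = z
    · subst hwz
      simp
    · rw [if_neg hwz]
      obtain ⟨c, hc⟩ := Function.ne_iff.1 hwz
      exact Finset.prod_eq_zero (Finset.mem_univ c) (if_neg hc)
  simp_rw [h1]
  simp

omit hα in
variable (α) in
/-- The span of the monomials of degree less than `i`. -/
noncomputable def W (i : ℕ) : Submodule K (GG → K) :=
  Submodule.span K (ev α '' {g | dg g < i})

omit hα in
lemma mem_W_of_lt {i : ℕ} {g : GG} (h : dg g < i) : ev α g ∈ W α i :=
  Submodule.subset_span ⟨g, h, rfl⟩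

lemma linInd_ev : LinearIndependent K (ev α) := by
  rw [Fintype.linearIndependent_iff]
  intro c hc g
  have h1 := congrArg (coef α g) hc
  rw [map_sum, map_zero] at h1
  simp only [map_smul, coef_ev hα, smul_eq_mul, mul_ite, mul_one, mul_zero] at h1
  simpa using h1

lemma coef_W {i : ℕ} {F : GG → K} (hF : F ∈ W α i) {g : GG}
    (hg : i ≤ dg g) : coef α g F = 0 := by
  induction hF using Submodule.span_induction with
  | mem x hx =>
    obtain ⟨h, hh, rfl⟩ := hx
    rw [coef_ev hα, if_neg]
    rintro rfl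
    exact absurd hh (not_lt.mpr hg)
  | zero => exact map_zero _
  | add x y _ _ hx hy => rw [map_add, hx, hy, add_zero]
  | smul a x _ hx => rw [map_smul, hx, smul_zero]

lemma mem_W_of_coef {j : ℕ} {F : GG → K}
    (h : ∀ g, j ≤ dg g → coef α g F = 0) : F ∈ W α j := by
  rw [expand hα F]
  apply Submodule.sum_mem
  intro g _
  by_cases hg : dg g < j
  · exact Submodule.smul_mem _ _ (mem_W_of_lt hg)
  · rw [h g (not_lt.mp hg), zero_smul]
    exact Submodule.zero_mem _

lemma finrank_W (i : ℕ) :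
    Module.finrank K (W α i) = (Finset.univ.filter (fun g => dg g < i)).card := by
  have h1 : W α i = Submodule.span K (Set.range (fun x : {g : GG // dg g < i} => ev α (x : GG))) := by
    rw [W]
    congr 1
    ext F
    constructor
    · rintro ⟨g, hg, rfl⟩
      exact ⟨⟨g, hg⟩, rfl⟩
    · rintro ⟨⟨g, hg⟩, rfl⟩
      exact ⟨g, hg, rfl⟩
  rw [h1, finrank_span_eq_card]
  · rw [Fintype.card_subtype]
  · exact (linInd_ev hα).comp _ Subtype.val_injective

lemma W_mul (i j : ℕ) : W α (i + 1) * W α (j + 1) ≤ W α (i + j + 1) := by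
  rw [W, W, Submodule.span_mul_span]
  apply Submodule.span_le.mpr
  rintro F ⟨_, ⟨g, hg, rfl⟩, _, ⟨h, hh, rfl⟩, rfl⟩
  refine mem_W_of_coef hα fun k hk => ?_
  by_contra hne
  have h1 : dg g < i + 1 := hg
  have h2 : dg h < j + 1 := hh
  have h3 := dg_occ (coef_mul hα hne)
  omega

/-- The key lemma for the socle. -/
lemma socle_key {i : ℕ} (hi : i < 6) {F : GG → K} (hF : F ∈ W α (i + 1))
    (hm : ∀ a : GG, dg a ≤ 1 → ev α a * F ∈ W α (i + 1)) : F ∈ W α i := by
  classical
  refine mem_W_of_coef hα fun g hg => ?_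
  by_contra hne
  have hgi : dg g = i := by
    by_contra h
    exact hne (coef_W hα hF (by omega))
  obtain ⟨h, hh, hmax⟩ := Finset.exists_max_image
    (Finset.univ.filter fun h : GG => dg h = i ∧ coef α h F ≠ 0) tot
    ⟨g, by simp [hgi, hne]⟩
  simp only [Finset.mem_filter, Finset.mem_univ, true_and] at hh hmax
  have hco := dg_co h
  obtain ⟨a, b, hab, ha, hb⟩ := step (co h) (by omega)
  have hlt : ∀ c, (a c + h c : ℕ) < 5 := by
    intro c
    have h1 := hab c
    rw [co_val] at h1
    have := (h c).isLt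
    omega
  obtain ⟨k, hk⟩ : ∃ k : GG, ∀ c, (k c : ℕ) = a c + h c := ⟨fun c => ⟨_, hlt c⟩, fun c => rfl⟩
  have hbk : b = co k := by
    funext c
    refine Fin.ext ?_
    have h1 := hab c
    have h2 := hk c
    rw [co_val] at h1 ⊢
    have := (h c).isLt
    omega
  have hdk : dg k = i + 1 := by
    have h1 := dg_co k
    rw [← hbk] at h1
    omega
  have h0 := coef_W hα (hm a ha) (g := k) hdk.ge
  rw [expand hα F, Finset.mul_sum, map_sum] at h0
  rw [Finset.sum_eq_single h] at h0
  · rw [mul_smul_comm, map_smul, ← ev_add α hk, coef_ev hα, if_pos rfl, smul_eq_mul, mul_one] at h0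
    exact hh.2 h0
  · intro h' _ hne'
    rw [mul_smul_comm, map_smul, smul_eq_mul]
    by_contra hc
    have hc1 := left_ne_zero_of_mul hc
    have hc2 := coef_mul hα (right_ne_zero_of_mul hc)
    have hd1 : dg h' ≤ i := by
      by_contra h
      exact hc1 (coef_W hα hF (by omega))
    have hd2 := dg_occ hc2
    have hd3 : dg h' = i := by omega
    exact hne' (occ_tot hk hc2 (hmax h' ⟨hd3, hc1⟩))
  · intro h
    exact absurd (Finset.mem_univ _) h

end Fourier

/-- The finite set of exponents. -/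
noncomputable def eqv : Fin (93 + 1) ≃ {g : GG // g ∈ Finset.univ.filter (fun g : GG => dg g ≤ 1)} :=
  (Finset.equivFinOfCardEq card1).symm

/-- The `94` exponent vectors of degree at most one. -/
noncomputable def ee (j : Fin (93 + 1)) : GG := (eqv j).1

lemma dg_ee (j : Fin (93 + 1)) : dg (ee j) ≤ 1 := by
  have := (eqv j).2
  rw [Finset.mem_filter] at this
  exact this.2

lemma exists_ee (a : GG) (ha : dg a ≤ 1) : ∃ j, ee j = a := by
  refine ⟨eqv.symm ⟨a, Finset.mem_filter.mpr ⟨Finset.mem_univ _, ha⟩⟩, ?_⟩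
  unfold ee
  rw [Equiv.apply_symm_apply]

section Poly

variable {K : Type u} [Field K] (α : Fin 5 → K)

/-- evaluation at all the points -/
noncomputable def E : MvPolynomial (Fin (93 + 1)) K →ₐ[K] (GG → K) :=
  aeval (fun j => ev α (ee j))

/-- The points. -/
noncomputable def pt (z : GG) : Fin (93 + 1) → K := fun j => ev α (ee j) z

lemma E_apply (f : MvPolynomial (Fin (93 + 1)) K) (z : GG) : E α f z = eval (pt α z) f := by
  have h1 : (Pi.evalAlgHom K (fun _ : GG => K) z).comp (E α) = aeval (pt α z) := by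
    apply MvPolynomial.algHom_ext
    intro j
    simp [E, pt]
  have h2 := congrArg (fun F => F f) h1
  simp only [AlgHom.comp_apply] at h2
  rw [MvPolynomial.aeval_eq_eval] at h2
  exact h2

lemma E_X (j : Fin (93 + 1)) : E α (X j) = ev α (ee j) := by
  simp [E]

variable {α} (hα : Function.Injective α)

include hα in
lemma E_mem (i : ℕ) {f : MvPolynomial (Fin (93 + 1)) K}
    (hf : f.IsHomogeneous i) : E α f ∈ W α (i + 1) := by
  have key : Submodule.map (E α).toLinearMap (homogeneousSubmodule (Fin (93 + 1)) K i)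
      ≤ W α (i + 1) := by
    clear hf f
    induction i with
    | zero =>
      rintro _ ⟨f, hf, rfl⟩
      rw [homogeneousSubmodule_zero] at hf
      obtain ⟨c, hc⟩ := Submodule.mem_one.mp hf
      rw [← hc]
      show E α (algebraMap _ _ c) ∈ _
      rw [AlgHom.commutes, Algebra.algebraMap_eq_smul_one, ← ev_zero α]
      exact Submodule.smul_mem _ _ (mem_W_of_lt (by rw [(dg_zero 0).mpr rfl]; omega))
    | succ i ih =>
      rw [← homogeneousSubmodule_one_pow, pow_succ, homogeneousSubmodule_one_pow,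
        Submodule.map_mul]
      refine le_trans ?_ (W_mul hα i 1)
      refine mul_le_mul' ih ?_
      rw [homogeneousSubmodule_one_eq_span_X, Submodule.map_span]
      apply Submodule.span_le.mpr
      rintro _ ⟨_, ⟨j, rfl⟩, rfl⟩
      show E α (X j) ∈ _
      rw [E_X]
      exact mem_W_of_lt (by have := dg_ee j; omega)
  exact key ⟨f, hf, rfl⟩

omit hα in
lemma exists_of_deg_le (i : ℕ) (g : GG) (hg : dg g ≤ i) :
    ∃ f : MvPolynomial (Fin (93 + 1)) K, f.IsHomogeneous i ∧ E α f = ev α g := by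
  induction i generalizing g with
  | zero =>
    have : g = 0 := (dg_zero g).mp (by omega)
    subst this
    exact ⟨1, isHomogeneous_one _ _, by rw [map_one, ev_zero]⟩
  | succ i ih =>
    by_cases h : dg g ≤ i
    · obtain ⟨f, hf, hE⟩ := ih g h
      obtain ⟨j, hj⟩ := exists_ee 0 (by rw [(dg_zero 0).mpr rfl]; omega)
      refine ⟨X j * f, ?_, ?_⟩
      · have h5 := (isHomogeneous_X K j).mul hf
        rwa [Nat.add_comm 1 i] at h5
      · rw [map_mul, E_X, hE, hj, ev_zero, one_mul]
    · obtain ⟨a, b, hab, ha, hb⟩ := step g (by omega)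
      obtain ⟨j, hj⟩ := exists_ee a ha
      obtain ⟨f, hf, hE⟩ := ih b (by omega)
      refine ⟨X j * f, ?_, ?_⟩
      · have h5 := (isHomogeneous_X K j).mul hf
        rwa [Nat.add_comm 1 i] at h5
      · rw [map_mul, E_X, hE, hj, ← ev_add α hab]

omit hα in
lemma exists_of_mem (i : ℕ) {F : GG → K} (hF : F ∈ W α (i + 1)) :
    ∃ f : MvPolynomial (Fin (93 + 1)) K, f.IsHomogeneous i ∧ E α f = F := by
  induction hF using Submodule.span_induction with
  | mem x hx =>
    obtain ⟨g, hg, rfl⟩ := hx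
    exact exists_of_deg_le i g (Nat.lt_succ_iff.mp hg)
  | zero => exact ⟨0, isHomogeneous_zero _ _ _, map_zero _⟩
  | add x y _ _ hx hy =>
    obtain ⟨f, hf, rfl⟩ := hx
    obtain ⟨f', hf', rfl⟩ := hy
    exact ⟨f + f', hf.add hf', map_add _ _ _⟩
  | smul a x _ hx =>
    obtain ⟨f, hf, rfl⟩ := hx
    refine ⟨C a * f, hf.C_mul a, ?_⟩
    rw [← smul_eq_C_mul, map_smul]

variable (α) in
/-- The vanishing ideal. -/
noncomputable def I₀ : Ideal (MvPolynomial (Fin (93 + 1)) K) :=
  Ideal.span {f | ∃ d : ℕ, f.IsHomogeneous d ∧ E α f = 0}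

attribute [local instance] MvPolynomial.gradedAlgebra

lemma I₀_homog : (I₀ α).IsHomogeneous (homogeneousSubmodule (Fin (93 + 1)) K) := by
  apply Ideal.homogeneous_span
  rintro f ⟨d, hd, _⟩
  exact ⟨d, hd⟩

lemma E_I₀ {f : MvPolynomial (Fin (93 + 1)) K} (hf : f ∈ I₀ α) : E α f = 0 := by
  have h1 : I₀ α ≤ RingHom.ker (E α) := by
    apply Ideal.span_le.mpr
    rintro f ⟨d, _, h⟩
    exact h
  exact h1 hf

lemma mem_I₀_of_homog {f : MvPolynomial (Fin (93 + 1)) K} {i : ℕ} (hf : f.IsHomogeneous i)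
    (h : E α f = 0) : f ∈ I₀ α := Ideal.subset_span ⟨i, hf, h⟩

lemma mem_I₀_iff (f : MvPolynomial (Fin (93 + 1)) K) :
    f ∈ I₀ α ↔ ∀ i, E α (homogeneousComponent i f) = 0 := by
  rw [mem_iff_homogeneousComponent_mem I₀_homog f]
  constructor
  · intro h i
    exact E_I₀ (h i)
  · intro h i
    exact mem_I₀_of_homog (homogeneousComponent_isHomogeneous i f) (h i)

/-- the coordinate with exponent `0` -/
noncomputable def j₀ : Fin (93 + 1) := (exists_ee 0 (by rw [(dg_zero 0).mpr rfl]; omega)).choose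

lemma ee_j₀ : ee j₀ = 0 := (exists_ee 0 (by rw [(dg_zero 0).mpr rfl]; omega)).choose_spec

variable (α) in
/-- The ideal of the Artinian reduction. -/
noncomputable def J₀ : Ideal (MvPolynomial (Fin (93 + 1)) K) :=
  I₀ α ⊔ Ideal.span {X j₀}

lemma J₀_homog : (J₀ α).IsHomogeneous (homogeneousSubmodule (Fin (93 + 1)) K) := by
  apply Ideal.IsHomogeneous.sup I₀_homog
  apply Ideal.homogeneous_span
  rintro f hf
  rw [Set.mem_singleton_iff] at hf
  subst hf
  exact ⟨1, isHomogeneous_X _ _⟩

lemma comp_mul (j : Fin (93 + 1)) (q : MvPolynomial (Fin (93 + 1)) K) (i : ℕ) :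
    homogeneousComponent (i + 1) (X j * q) = X j * homogeneousComponent i q := by
  conv_lhs => rw [← sum_homogeneousComponent q, Finset.mul_sum, map_sum]
  have h1 : ∀ k, homogeneousComponent (i + 1) (X j * homogeneousComponent k q)
      = if k = i then X j * homogeneousComponent i q else 0 := by
    intro k
    have h2 : (X j * homogeneousComponent k q).IsHomogeneous (1 + k) :=
      (isHomogeneous_X K j).mul (homogeneousComponent_isHomogeneous k q)
    rw [homogeneousComponent_of_mem h2]
    by_cases hk : k = i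
    · subst hk
      rw [if_pos (by omega), if_pos rfl]
    · rw [if_neg (by omega), if_neg hk]
  rw [Finset.sum_congr rfl (fun k _ => h1 k), Finset.sum_ite_eq']
  split_ifs with h
  · rfl
  · rw [Finset.mem_range, not_lt] at h
    rw [homogeneousComponent_eq_zero i q (by omega), mul_zero]

lemma comp_mul_zero (j : Fin (93 + 1)) (q : MvPolynomial (Fin (93 + 1)) K) :
    homogeneousComponent 0 (X j * q) = 0 := by
  conv_lhs => rw [← sum_homogeneousComponent q, Finset.mul_sum, map_sum]
  apply Finset.sum_eq_zero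
  intro k _
  have h2 : (X j * homogeneousComponent k q).IsHomogeneous (1 + k) :=
    (isHomogeneous_X K j).mul (homogeneousComponent_isHomogeneous k q)
  rw [homogeneousComponent_of_mem h2, if_neg (by omega)]

lemma W_zero : W α 0 = ⊥ := by
  rw [W]
  have : {g : GG | dg g < 0} = ∅ := by ext g; simp
  rw [this, Set.image_empty, Submodule.span_empty]

include hα in
/-- Membership in `J₀` for homogeneous elements. -/
lemma mem_J₀_iff {i : ℕ} {f : MvPolynomial (Fin (93 + 1)) K} (hf : f.IsHomogeneous i) :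
    f ∈ J₀ α ↔ E α f ∈ W α i := by
  constructor
  · intro h
    obtain ⟨f1, hf1, f2, hf2, rfl⟩ := Submodule.mem_sup.mp h
    obtain ⟨q, rfl⟩ := Ideal.mem_span_singleton'.mp hf2
    have h1 : homogeneousComponent i (f1 + q * X j₀) = f1 + q * X j₀ :=
      homogeneousComponent_eq_self hf
    rw [mul_comm q] at h1 ⊢
    rw [← h1, map_add, map_add, (mem_I₀_iff f1).mp hf1 i, zero_add]
    cases i with
    | zero =>
      rw [comp_mul_zero, map_zero]
      exact Submodule.zero_mem _
    | succ i =>
      rw [comp_mul, map_mul, E_X, ee_j₀, ev_zero, one_mul]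
      exact E_mem hα i (homogeneousComponent_isHomogeneous i q)
  · intro hE
    cases i with
    | zero =>
      rw [W_zero, Submodule.mem_bot] at hE
      exact Submodule.mem_sup_left (mem_I₀_of_homog hf hE)
    | succ i =>
      obtain ⟨q, hq, hqE⟩ := exists_of_mem i hE
      have h3 : f - X j₀ * q ∈ I₀ α := by
        apply mem_I₀_of_homog (i := i + 1)
        · apply hf.sub
          have h5 := (isHomogeneous_X K j₀).mul hq
          rwa [Nat.add_comm 1 i] at h5
        · rw [map_sub, map_mul, E_X, ee_j₀, ev_zero, one_mul, hqE, sub_self]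
      have h4 : f = (f - X j₀ * q) + q * X j₀ := by ring
      rw [h4]
      apply Submodule.add_mem_sup h3
      exact Ideal.mul_mem_left _ _ (Ideal.mem_span_singleton_self _)

lemma mem_J₀_iff' (f : MvPolynomial (Fin (93 + 1)) K) :
    f ∈ J₀ α ↔ ∀ i, homogeneousComponent i f ∈ J₀ α :=
  mem_iff_homogeneousComponent_mem J₀_homog f

instance fin_H (i : ℕ) : Module.Finite K (homogeneousSubmodule (Fin (93 + 1)) K i) :=
  Module.Finite.iff_fg.mpr (homogeneousSubmodule_fg _ _ i)

lemma card_split (i : ℕ) :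
    (Finset.univ.filter (fun g => dg g < i + 1)).card =
      (Finset.univ.filter (fun g => dg g < i)).card +
        (Finset.univ.filter (fun g => dg g = i)).card := by
  rw [← Finset.card_union_of_disjoint]
  · congr 1
    ext g
    simp only [Finset.mem_filter, Finset.mem_univ, true_and, Finset.mem_union]
    omega
  · rw [Finset.disjoint_left]
    intro g hg hg'
    simp only [Finset.mem_filter, Finset.mem_univ, true_and] at hg hg'
    omega

include hα in
/-- the dimension count -/
lemma finrank_H (i : ℕ) :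
    Module.finrank K (homogeneousSubmodule (Fin (93 + 1)) K i) =
      (Finset.univ.filter (fun g => dg g = i)).card +
      Module.finrank K ↥(homogeneousSubmodule (Fin (93 + 1)) K i ⊓
        (J₀ α).restrictScalars K) := by
  set H := homogeneousSubmodule (Fin (93 + 1)) K i with hH
  set φ := ((W α i).mkQ ∘ₗ (E α).toLinearMap).domRestrict H with hφ
  have e1 := LinearMap.finrank_range_add_finrank_ker φ
  have hr1 : LinearMap.range φ = Submodule.map (W α i).mkQ (W α (i + 1)) := by
    rw [hφ, LinearMap.range_domRestrict, Submodule.map_comp]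
    congr 1
    apply le_antisymm
    · rintro _ ⟨f, hf, rfl⟩
      exact E_mem hα i hf
    · intro F hF
      obtain ⟨f, hf, rfl⟩ := exists_of_mem i hF
      exact ⟨f, hf, rfl⟩
  have hk : LinearMap.ker φ = Submodule.comap H.subtype (H ⊓ (J₀ α).restrictScalars K) := by
    ext ⟨f, hf⟩
    rw [LinearMap.mem_ker, hφ, LinearMap.domRestrict_apply, Submodule.mem_comap]
    show (W α i).mkQ (E α f) = 0 ↔ f ∈ H ⊓ (J₀ α).restrictScalars K
    rw [Submodule.mkQ_apply, Submodule.Quotient.mk_eq_zero, Submodule.mem_inf,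
      Submodule.restrictScalars_mem, mem_J₀_iff hα hf]
    exact ⟨fun h => ⟨hf, h⟩, fun h => h.2⟩
  have hWle : W α i ≤ W α (i + 1) := by
    apply Submodule.span_mono
    apply Set.image_mono
    intro g hg
    exact lt_of_lt_of_le hg (Nat.le_succ i)
  have h1 : Module.finrank K (Submodule.map (W α i).mkQ (W α (i + 1))) =
      (Finset.univ.filter (fun g => dg g = i)).card := by
    have h2 := LinearMap.finrank_range_add_finrank_ker ((W α i).mkQ.domRestrict (W α (i + 1)))
    rw [finrank_W hα, card_split, LinearMap.range_domRestrict] at h2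
    have h3 : LinearMap.ker ((W α i).mkQ.domRestrict (W α (i + 1))) =
        Submodule.comap (W α (i + 1)).subtype (W α i) := by
      ext x
      simp [LinearMap.domRestrict_apply]
    rw [h3, LinearEquiv.finrank_eq (Submodule.comapSubtypeEquivOfLe hWle), finrank_W hα] at h2
    omega
  rw [hr1, h1, hk, LinearEquiv.finrank_eq (Submodule.comapSubtypeEquivOfLe inf_le_left)] at e1
  exact e1.symm

include hα in
theorem socle :
    ∃ g : MvPolynomial (Fin (93 + 1)) K, g ∉ J₀ α ∧
      (∀ j, X j * g ∈ J₀ α) ∧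
      ∀ f : MvPolynomial (Fin (93 + 1)) K, (∀ j, X j * f ∈ J₀ α) →
        ∃ a : K, f - C a * g ∈ J₀ α := by
  have h6 : dg g₀ = 6 := (dg_six g₀).2 rfl
  obtain ⟨g, hg, hE⟩ := exists_of_deg_le (α := α) 6 g₀ h6.le
  refine ⟨g, ?_, ?_, ?_⟩
  · intro h
    rw [mem_J₀_iff hα hg, hE] at h
    have h1 := coef_W hα h (g := g₀) h6.ge
    rw [coef_ev hα, if_pos rfl] at h1
    exact one_ne_zero h1
  · intro j
    have h1 : (X j * g).IsHomogeneous (6 + 1) := by
      have h5 := (isHomogeneous_X K j).mul hg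
      rwa [Nat.add_comm 1 6] at h5
    rw [mem_J₀_iff hα h1]
    refine mem_W_of_coef hα fun k hk => ?_
    have := dg_le k
    omega
  · intro f hf
    refine ⟨coef α g₀ (E α (homogeneousComponent 6 f)), ?_⟩
    rw [mem_J₀_iff']
    intro i
    rw [mem_J₀_iff hα (homogeneousComponent_isHomogeneous i _)]
    rw [map_sub, homogeneousComponent_C_mul, homogeneousComponent_of_mem hg, map_sub]
    have hmem : E α (homogeneousComponent i f) ∈ W α (i + 1) :=
      E_mem hα i (homogeneousComponent_isHomogeneous i f)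
    rcases lt_trichotomy i 6 with hi | hi | hi
    · rw [if_neg (by omega), mul_zero, map_zero, sub_zero]
      refine socle_key hα hi hmem fun a ha => ?_
      obtain ⟨j, hj⟩ := exists_ee a ha
      have h3 := (mem_J₀_iff' _).mp (hf j) (i + 1)
      rw [mem_J₀_iff hα (homogeneousComponent_isHomogeneous (i + 1) _), comp_mul,
        map_mul, E_X, hj] at h3
      exact h3
    · subst hi
      rw [if_pos rfl, ← smul_eq_C_mul, map_smul, hE]
      refine mem_W_of_coef hα fun k hk => ?_
      have hk6 : k = g₀ := (dg_six k).1 (le_antisymm (dg_le k) hk)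
      subst hk6
      rw [map_sub, map_smul, coef_ev hα, if_pos rfl, smul_eq_mul, mul_one, sub_self]
    · refine mem_W_of_coef hα fun k hk => ?_
      have := dg_le k
      omega

end Poly

variable {K : Type u} [Field K]

/-- **Main theorem.** -/
theorem result (K : Type u) [Field K] (hK : ∃ α : Fin 5 → K, Function.Injective α) :
    ∃ (X : Finset (Fin 94 → K)) (c : Fin 94 → K)
      (I J : Ideal (MvPolynomial (Fin 94) K)) (h : ℕ → ℕ),
      -- the points: `625` vectors with one coordinate equal to `1`, so distinct points of `ℙ⁹³`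
      X.card = 625 ∧ (∃ j, ∀ p ∈ X, p j = 1) ∧
      -- the linear form given by `c` vanishes at no point
      (∀ p ∈ X, ∑ j, c j * p j ≠ 0) ∧
      -- `I` is the homogeneous ideal of the points and `J = I + (ℓ)`
      (∀ f : MvPolynomial (Fin 94) K,
        f ∈ I ↔ ∀ i, ∀ p ∈ X, eval p (homogeneousComponent i f) = 0) ∧
      J = I ⊔ Ideal.span ({∑ j, C (c j) * MvPolynomial.X j} : Set (MvPolynomial (Fin 94) K)) ∧
      -- the socle of the Artinian reduction is one-dimensional
      (∃ g : MvPolynomial (Fin 94) K, g ∉ J ∧ (∀ j, MvPolynomial.X j * g ∈ J) ∧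
        ∀ f : MvPolynomial (Fin 94) K, (∀ j, MvPolynomial.X j * f ∈ J) →
          ∃ a : K, f - C a * g ∈ J) ∧
      -- the `h`-vector
      (∀ i, h i + Module.finrank K ↥(homogeneousSubmodule (Fin 94) K i ⊓ J.restrictScalars K) =
        Module.finrank K ↥(homogeneousSubmodule (Fin 94) K i)) ∧
      h 0 = 1 ∧ h 1 = 93 ∧ h 2 = 146 ∧ h 3 = 145 ∧ h 4 = 146 ∧ h 5 = 93 ∧ h 6 = 1 ∧
      (∀ i, 7 ≤ i → h i = 0) ∧
      ¬ ∃ m : ℕ, (∀ i j, i ≤ j → j ≤ m → h i ≤ h j) ∧ (∀ i j, m ≤ i → i ≤ j → h j ≤ h i) := by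
  classical
  obtain ⟨α, hα⟩ := hK
  have hlin : ∑ j, C ((Pi.single j₀ (1 : K) : Fin 94 → K) j) * MvPolynomial.X j =
      (MvPolynomial.X j₀ : MvPolynomial (Fin 94) K) := by
    rw [Finset.sum_eq_single j₀]
    · simp
    · intro k _ hk
      rw [Pi.single_eq_of_ne hk]
      simp
    · intro h
      exact absurd (Finset.mem_univ _) h
  have hone : ∀ z, pt α z j₀ = 1 := fun z => by
    rw [pt, ee_j₀, ev_zero]; rfl
  have hinj : Function.Injective (pt α) := by
    intro z w hzw
    -- all monomials of degree at most one separate points; the four coordinates are among them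
    funext c
    obtain ⟨j, hj⟩ := exists_ee (Pi.single c 1) (by
      fin_cases c <;> decide +kernel)
    have h1 := congrFun hzw j
    simp only [pt, hj, ev] at h1
    have h2 : ∀ z : GG, ∏ d, α (z d) ^ ((Pi.single c 1 : GG) d : ℕ) = α (z c) := by
      intro z
      rw [Finset.prod_eq_single c]
      · simp
      · intro d _ hd
        rw [Pi.single_eq_of_ne hd]
        simp
      · intro h
        exact absurd (Finset.mem_univ _) h
    rw [h2, h2] at h1
    exact hα h1
  have hX : ∀ p, p ∈ Finset.univ.image (pt α) ↔ ∃ z, pt α z = p := fun p => by simp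
  refine ⟨Finset.univ.image (pt α), Pi.single j₀ 1, I₀ α, J₀ α,
    fun i => (Finset.univ.filter (fun g => dg g = i)).card, ?_, ⟨j₀, ?_⟩, ?_, ?_, ?_, socle hα, ?_,
    cardd0, cardd1, cardd2, cardd3, cardd4, cardd5, cardd6, ?_, ?_⟩
  · rw [Finset.card_image_of_injective _ hinj]
    simp
  · intro p hp
    obtain ⟨z, rfl⟩ := (hX p).1 hp
    exact hone z
  · intro p hp
    obtain ⟨z, rfl⟩ := (hX p).1 hp
    rw [Finset.sum_eq_single j₀]
    · rw [Pi.single_eq_same, hone]; simp
    · intro k _ hk
      rw [Pi.single_eq_of_ne hk, zero_mul]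
    · intro h
      exact absurd (Finset.mem_univ _) h
  · intro f
    rw [mem_I₀_iff]
    refine forall_congr' fun i => ⟨fun h p hp => ?_, fun h => ?_⟩
    · obtain ⟨z, rfl⟩ := (hX p).1 hp
      rw [← E_apply, h]
      rfl
    · funext z
      rw [E_apply]
      exact h _ ((hX _).2 ⟨z, rfl⟩)
  · rw [hlin]; rfl
  · intro i
    exact (finrank_H hα i).symm
  · intro i hi
    rw [Finset.card_eq_zero, Finset.filter_eq_empty_iff]
    intro g _ hg
    have := dg_le g
    omega
  · rintro ⟨m, hm1, hm2⟩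
    rcases Nat.lt_or_ge m 3 with h | h
    · have h1 := hm2 3 4 (by omega) (by omega)
      simp only [cardd3, cardd4] at h1
      omega
    · have h1 := hm1 2 3 (by omega) h
      simp only [cardd3, cardd2] at h1
      omega

end Pool.Agent.Results.MP_845d9e_ag.EveryField
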